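import Pool.Agent.H29.UDP.TLat

/-!
# The difference of two averages on the torus (row ABV)
-/

set_option autoImplicit false

open MeasureTheory Filter Topology
open scoped ENNReal InnerProductSpace

namespace Pool.Agent.H49.UDP

open Pool.Agent.H29.UDP

noncomputable section

/-- the coupling is even -/
theorem neg_eq {d N : ℕ} [NeZero N] {J : (Fin d → ZMod N) → ℝ} (hJ : TorJ d N J)
    (z : Fin d → ZMod N) : J (-z) = J z := by
  classical
  have h : ∀ S : Finset (Fin d), J (fun j => if j ∈ S then -z j else z j) = J z := by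
    intro S
    induction S using Finset.induction_on with
    | empty => simp
    | insert a S ha ih =>
      rw [← ih, ← hJ.flip a (fun j => if j ∈ S then -z j else z j)]
      congr 1
      ext j
      by_cases hj : j = a
      · subst hj
        simp [ha]
      · simp [hj]
  have h1 := h Finset.univ
  have h2 : (fun j => if j ∈ (Finset.univ : Finset (Fin d)) then -z j else z j) = -z := by
    ext j
    simp
  rw [h2] at h1
  exact h1

/-- the quadratic form of `Lh` -/
theorem form_eq {d N : ℕ} [NeZero N] {J : (Fin d → ZMod N) → ℝ} (hJ : TorJ d N J)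
    (h : (Fin d → ZMod N) → ℝ) :
    ∑ x, ∑ y, J (x - y) * (h x - h y) ^ 2 = 2 * ∑ x, h x * Lh J h x := by
  have e1 : ∑ x, h x * Lh J h x = ∑ x, ∑ y, J (x - y) * (h x - h y) * h x := by
    refine Finset.sum_congr rfl fun x _ => ?_
    rw [Lh, Finset.mul_sum]
    refine Finset.sum_congr rfl fun y _ => ?_
    ring
  have e2 : ∑ x, ∑ y, J (x - y) * (h x - h y) * h x =
      ∑ x, ∑ y, J (x - y) * (h y - h x) * h y := by
    rw [Finset.sum_comm]
    refine Finset.sum_congr rfl fun x _ => ?_
    refine Finset.sum_congr rfl fun y _ => ?_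
    rw [← neg_eq hJ (y - x), neg_sub]
  rw [two_mul]
  nth_rewrite 2 [e1]
  rw [e2, e1, ← Finset.sum_add_distrib]
  refine Finset.sum_congr rfl fun x _ => ?_
  rw [← Finset.sum_add_distrib]
  refine Finset.sum_congr rfl fun y _ => ?_
  ring

theorem pf_ABV (hTIV : T_TIV) : T_ABV := by
  classical
  intro d N _ hN J hJ hpos g b hg A B q hA hB hq hAB
  have hn : (0 : ℝ) < A.card := by exact_mod_cast hA.card_pos
  have hm : (0 : ℝ) < B.card := by exact_mod_cast hB.card_pos
  have key : ∀ h : (Fin d → ZMod N) → ℝ,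
      ∑ x, ((if x ∈ A then (A.card : ℝ)⁻¹ else 0) - (if x ∈ B then (B.card : ℝ)⁻¹ else 0)) * h x =
        (∑ x ∈ A, h x) / A.card - (∑ x ∈ B, h x) / B.card := by
    intro h
    simp only [sub_mul, ite_mul, zero_mul, Finset.sum_sub_distrib]
    rw [← Finset.sum_filter, ← Finset.sum_filter]
    simp only [Finset.filter_univ_mem]
    rw [← Finset.mul_sum, ← Finset.mul_sum]
    ring
  have h0 := hTIV d N hN J hJ hpos g b hg
    (fun x => (if x ∈ A then (A.card : ℝ)⁻¹ else 0) - (if x ∈ B then (B.card : ℝ)⁻¹ else 0))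
    (2 / (q * A.card * B.card)) (by positivity) ?_ ?_
  · simp only [key] at h0
    exact h0
  · have h1 := key (fun _ => 1)
    simp only [mul_one, Finset.sum_const, nsmul_eq_mul] at h1
    rw [h1, div_self hn.ne', div_self hm.ne', sub_self]
  · intro h
    rw [key]
    have e1 : (∑ x ∈ A, h x) / A.card - (∑ x ∈ B, h x) / B.card =
        (A.card * B.card : ℝ)⁻¹ * ∑ p ∈ A ×ˢ B, (h p.1 - h p.2) := by
      rw [Finset.sum_sub_distrib, Finset.sum_product, Finset.sum_product]
      simp only [Finset.sum_const, nsmul_eq_mul]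
      rw [← Finset.mul_sum]
      field_simp
    have e2 : (∑ p ∈ A ×ˢ B, (h p.1 - h p.2)) ^ 2 ≤
        (A.card * B.card : ℝ) * ∑ p ∈ A ×ˢ B, (h p.1 - h p.2) ^ 2 := by
      have h2 := sq_sum_le_card_mul_sum_sq (s := A ×ˢ B) (f := fun p => h p.1 - h p.2)
      rw [Finset.card_product] at h2
      push_cast at h2
      exact h2
    have e3 : q * ∑ p ∈ A ×ˢ B, (h p.1 - h p.2) ^ 2 ≤ ∑ x, ∑ y, J (x - y) * (h x - h y) ^ 2 := by
      rw [Finset.mul_sum]
      have h3 : ∑ p ∈ A ×ˢ B, q * (h p.1 - h p.2) ^ 2 ≤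
          ∑ p ∈ A ×ˢ B, J (p.1 - p.2) * (h p.1 - h p.2) ^ 2 := by
        refine Finset.sum_le_sum fun p hp => ?_
        rw [Finset.mem_product] at hp
        by_cases hxy : p.1 = p.2
        · rw [hxy]
          simp
        · exact mul_le_mul_of_nonneg_right (hAB _ hp.1 _ hp.2 hxy) (sq_nonneg _)
      refine h3.trans ?_
      rw [← Fintype.sum_prod_type' (f := fun x y => J (x - y) * (h x - h y) ^ 2)]
      exact Finset.sum_le_sum_of_subset_of_nonneg (Finset.subset_univ _)
        fun p _ _ => mul_nonneg (hJ.nonneg _) (sq_nonneg _)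
    rw [form_eq hJ] at e3
    rw [e1, mul_pow]
    have hnm : (0 : ℝ) < A.card * B.card := mul_pos hn hm
    calc ((A.card * B.card : ℝ)⁻¹) ^ 2 * (∑ p ∈ A ×ˢ B, (h p.1 - h p.2)) ^ 2
        ≤ ((A.card * B.card : ℝ)⁻¹) ^ 2 *
          ((A.card * B.card : ℝ) * ∑ p ∈ A ×ˢ B, (h p.1 - h p.2) ^ 2) :=
          mul_le_mul_of_nonneg_left e2 (by positivity)
      _ = (q * (A.card * B.card : ℝ))⁻¹ * (q * ∑ p ∈ A ×ˢ B, (h p.1 - h p.2) ^ 2) := by
          field_simp
      _ ≤ (q * (A.card * B.card : ℝ))⁻¹ * (2 * ∑ x, h x * Lh J h x) :=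
          mul_le_mul_of_nonneg_left e3 (by positivity)
      _ = 2 / (q * A.card * B.card) * ∑ x, h x * Lh J h x := by
          field_simp

end

end Pool.Agent.H49.UDP
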