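import Pool.Agent.H29.UDP.TLat

/-!
# Elementary properties of the periodised coupling (row PJS)
-/

set_option autoImplicit false

open MeasureTheory Filter Topology
open scoped ENNReal InnerProductSpace

namespace Pool.Agent.H49.UDP

open Pool.Agent.H29.UDP
open Pool.Agent.H43.DPC (V)

noncomputable section

theorem norm_ipt {δ : ℝ} (hδ : 0 ≤ δ) {d : ℕ} (m : Fin d → ℤ) :
    ‖ipt δ m‖ = δ * ‖ipt 1 m‖ := by
  have h : ipt δ m = δ • ipt 1 m := by
    ext j
    simp [ipt]
  rw [h, norm_smul, Real.norm_of_nonneg hδ]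

theorem norm_ipt_flip (δ : ℝ) {d : ℕ} (m : Fin d → ℤ) (j : Fin d) :
    ‖ipt δ (Function.update m j (-m j))‖ = ‖ipt δ m‖ := by
  rw [EuclideanSpace.norm_eq, EuclideanSpace.norm_eq]
  congr 1
  refine Finset.sum_congr rfl fun i _ => ?_
  by_cases hi : i = j
  · subst hi
    simp [ipt]
  · simp [ipt, hi]

/-- the lattice -/
def Lt (d : ℕ) : Submodule ℤ (V d) :=
  Submodule.span ℤ (Set.range (EuclideanSpace.basisFun (Fin d) ℝ).toBasis)

instance (d : ℕ) : DiscreteTopology (Lt d) := by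
  unfold Lt
  infer_instance

instance (d : ℕ) : IsZLattice ℝ (Lt d) := by
  unfold Lt
  infer_instance

theorem rk_Lt (d : ℕ) : Module.finrank ℤ (Lt d) = d := by
  rw [ZLattice.rank ℝ (Lt d)]
  exact finrank_euclideanSpace_fin

theorem mem_Lt {d : ℕ} (m : Fin d → ℤ) : ipt 1 m ∈ Lt d := by
  rw [Lt, Submodule.mem_span_range_iff_exists_fun]
  refine ⟨m, ?_⟩
  ext j
  simp [ipt, Pi.single_apply]

theorem summable_ipt {d : ℕ} {s : ℝ} (hs : (d : ℝ) < 2 * s) :
    Summable fun m : Fin d → ℤ => ‖ipt 1 m‖ ^ (-(2 * s)) := by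
  have h1 := ZLattice.summable_norm_rpow (Lt d) (-(2 * s)) (by rw [rk_Lt]; linarith)
  have hinj : Function.Injective (fun m : Fin d → ℤ => (⟨ipt 1 m, mem_Lt m⟩ : Lt d)) := by
    intro m m' h
    have h2 : ipt 1 m = ipt 1 m' := congrArg Subtype.val h
    ext j
    have h3 := congrArg (fun v : V d => v j) h2
    simpa [ipt] using h3
  have h4 := h1.comp_injective hinj
  exact h4

/-- the term of `m` -/
def tm (δ κ κ' s : ℝ) {d : ℕ} (m : Fin d → ℤ) : ℝ :=
  κ * ‖ipt δ m‖ ^ (-(2 * s)) + (if ‖ipt δ m‖ = δ then κ' else 0)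

theorem tm_nonneg {δ κ κ' s : ℝ} (hκ : 0 ≤ κ) (hκ' : 0 ≤ κ') {d : ℕ} (m : Fin d → ℤ) :
    0 ≤ tm δ κ κ' s m := by
  rw [tm]
  refine add_nonneg (mul_nonneg hκ (Real.rpow_nonneg (norm_nonneg _) _)) ?_
  split_ifs
  · exact hκ'
  · exact le_rfl

theorem tm_le {δ κ κ' s : ℝ} (hδ : 0 < δ) (hκ' : 0 ≤ κ') {d : ℕ} (m : Fin d → ℤ) :
    tm δ κ κ' s m ≤ (κ * δ ^ (-(2 * s)) + κ') * ‖ipt 1 m‖ ^ (-(2 * s)) := by
  rw [tm, add_mul]
  refine add_le_add ?_ ?_
  · rw [norm_ipt hδ.le, Real.mul_rpow hδ.le (norm_nonneg _)]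
    exact le_of_eq (by ring)
  · split_ifs with h
    · rw [norm_ipt hδ.le] at h
      have h2 : ‖ipt 1 m‖ = 1 := by
        have h3 : δ * ‖ipt 1 m‖ = δ * 1 := by rw [h, mul_one]
        exact mul_left_cancel₀ hδ.ne' h3
      rw [h2, Real.one_rpow, mul_one]
    · exact mul_nonneg hκ' (Real.rpow_nonneg (norm_nonneg _) _)

theorem summable_tm {δ κ κ' s : ℝ} (hδ : 0 < δ) (hκ : 0 ≤ κ) (hκ' : 0 ≤ κ') {d : ℕ}
    (hs : (d : ℝ) < 2 * s) (p : (Fin d → ℤ) → Prop) [DecidablePred p] :
    Summable fun m : Fin d → ℤ => if p m then tm δ κ κ' s m else 0 := by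
  refine Summable.of_nonneg_of_le (fun m => ?_) (fun m => ?_)
    ((summable_ipt hs).mul_left (κ * δ ^ (-(2 * s)) + κ'))
  · split_ifs
    · exact tm_nonneg hκ hκ' m
    · exact le_rfl
  · split_ifs
    · exact tm_le hδ hκ' m
    · exact mul_nonneg (add_nonneg (mul_nonneg hκ (Real.rpow_nonneg hδ.le _)) hκ')
        (Real.rpow_nonneg (norm_nonneg _) _)

/-- negation of the `j`-th coordinate -/
def flipEquiv {d : ℕ} (j : Fin d) : (Fin d → ℤ) ≃ (Fin d → ℤ) :=
  Function.Involutive.toPerm (fun m => Function.update m j (-m j)) (by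
    intro m
    ext i
    by_cases hi : i = j
    · subst hi
      simp
    · simp [hi])

open Classical in
theorem pJ_eq (δ κ κ' s : ℝ) {d N : ℕ} (z : Fin d → ZMod N) : pJ δ κ κ' s z =
    ∑' m : Fin d → ℤ, if m ≠ 0 ∧ ∀ j, ((m j : ℤ) : ZMod N) = z j then tm δ κ κ' s m else 0 := rfl

theorem pf_PJS : T_PJS := by
  classical
  intro d N _ δ κ κ' s hδ hκ hκ' hs
  refine ⟨?_, ?_, ?_, ?_⟩
  · have h := summable_tm (δ := δ) (κ := κ) (κ' := κ') hδ hκ hκ' hs (fun m : Fin d → ℤ => m ≠ 0)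
    exact h.congr fun m => by
      by_cases hm : m = 0
      · simp [hm]
      · simp [hm, tm]
  · intro z
    rw [pJ_eq]
    refine tsum_nonneg fun m => ?_
    split_ifs
    · exact tm_nonneg hκ hκ' m
    · exact le_rfl
  · intro j z
    rw [pJ_eq, pJ_eq, ← Equiv.tsum_eq (flipEquiv j)]
    refine tsum_congr fun m => ?_
    have hf : flipEquiv j m = Function.update m j (-m j) := rfl
    rw [hf]
    have h1 : tm δ κ κ' s (Function.update m j (-m j)) = tm δ κ κ' s m := by
      rw [tm, tm, norm_ipt_flip]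
    rw [h1]
    have h2 : (Function.update m j (-m j) ≠ 0 ∧ ∀ i, ((Function.update m j (-m j) i : ℤ) : ZMod N) =
        Function.update z j (-z j) i) ↔ (m ≠ 0 ∧ ∀ i, ((m i : ℤ) : ZMod N) = z i) := by
      refine and_congr ?_ ?_
      · refine not_congr ?_
        constructor
        · intro h
          ext i
          have h3 := congrFun h i
          by_cases hi : i = j
          · subst hi
            simpa using h3
          · simpa [hi] using h3
        · intro h
          subst h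
          ext i
          by_cases hi : i = j
          · subst hi
            simp
          · simp [hi]
      · refine forall_congr' fun i => ?_
        by_cases hi : i = j
        · subst hi
          simp
        · simp [hi]
    simp only [h2]
  · intro m hm
    rw [pJ_eq]
    have h := summable_tm (δ := δ) (κ := κ) (κ' := κ') hδ hκ hκ' hs
      (fun m' : Fin d → ℤ => m' ≠ 0 ∧ ∀ j, ((m' j : ℤ) : ZMod N) = ((m j : ℤ) : ZMod N))
    have h2 := h.le_tsum m (fun m' _ => by
      split_ifs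
      · exact tm_nonneg hκ hκ' m'
      · exact le_rfl)
    rw [if_pos ⟨hm, fun _ => rfl⟩] at h2
    exact h2

end

end Pool.Agent.H49.UDP
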