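import Pool.Agent.H29.UDP.TLat

/-!
# A system with additional decoupled sites (row SUB)
-/

set_option autoImplicit false

open MeasureTheory Filter Topology
open scoped ENNReal InnerProductSpace

namespace Pool.Agent.H49.UDP

open Pool.Agent.H29.UDP

noncomputable section

section

variable {ι ι' : Type} [Fintype ι] [Fintype ι']

open Classical in
/-- the sites of the large system -/
def sEq (e : ι → ι') (he : Function.Injective e) : ι ⊕ ((Set.range e)ᶜ : Set ι') ≃ ι' :=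
  ((Equiv.ofInjective e he).sumCongr (Equiv.refl _)).trans (Equiv.Set.sumCompl (Set.range e))

theorem sEq_inl (e : ι → ι') (he : Function.Injective e) (x : ι) :
    sEq e he (Sum.inl x) = e x := by
  simp [sEq]

theorem sEq_inr (e : ι → ι') (he : Function.Injective e) (x : ((Set.range e)ᶜ : Set ι')) :
    sEq e he (Sum.inr x) = x.1 := by
  simp [sEq]

/-- the splitting of the configurations -/
def cEq (e : ι → ι') (he : Function.Injective e) :
    (ι' → ℝ) ≃ᵐ (ι → ℝ) × (((Set.range e)ᶜ : Set ι') → ℝ) :=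
  (MeasurableEquiv.piCongrLeft (fun _ : ι' => ℝ) (sEq e he)).symm.trans
    (MeasurableEquiv.sumPiEquivProdPi (fun _ => ℝ))

theorem cEq_fst (e : ι → ι') (he : Function.Injective e) (φ : ι' → ℝ) :
    (cEq e he φ).1 = fun x => φ (e x) := by
  ext x
  rw [← sEq_inl e he x]
  rfl

theorem cEq_snd (e : ι → ι') (he : Function.Injective e) (φ : ι' → ℝ) :
    (cEq e he φ).2 = fun x => φ x.1 := by
  ext x
  rw [← sEq_inr e he x]
  rfl

open Classical in
theorem cEq_mp (e : ι → ι') (he : Function.Injective e) :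
    MeasurePreserving (cEq e he) volume volume :=
  ((volume_measurePreserving_piCongrLeft (fun _ : ι' => ℝ) (sEq e he)).symm).trans
    (volume_measurePreserving_sumPiEquivProdPi (fun _ => ℝ))

open Classical in
/-- the energy splits -/
theorem gH_split (e : ι → ι') (he : Function.Injective e) (J : ι → ι → ℝ) (J' : ι' → ι' → ℝ)
    (g b : ι → ℝ) (g' b' : ι' → ℝ) (h1 : ∀ x y, J' (e x) (e y) = J x y)
    (h2 : ∀ x y, (x ∉ Set.range e ∨ y ∉ Set.range e) → J' x y = 0) (h3 : ∀ x, g' (e x) = g x)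
    (h4 : ∀ x, b' (e x) = b x) (φ : ι' → ℝ) :
    gH J' g' b' φ = gH J g b (fun x => φ (e x)) +
      gH (fun _ _ : ((Set.range e)ᶜ : Set ι') => 0) (fun x => g' x.1) (fun x => b' x.1)
        (fun x => φ x.1) := by
  have hs : ∀ F : ι' → ℝ, ∑ x, F x = ∑ x, F (e x) + ∑ x : ((Set.range e)ᶜ : Set ι'), F x.1 := by
    intro F
    rw [← Equiv.sum_comp (sEq e he), Fintype.sum_sum_type]
    simp only [sEq_inl, sEq_inr]
  have hJ1 : ∀ (x : ((Set.range e)ᶜ : Set ι')) y, J' x.1 y = 0 := fun x y => h2 _ _ (Or.inl x.2)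
  have hJ2 : ∀ x (y : ((Set.range e)ᶜ : Set ι')), J' x y.1 = 0 := fun x y => h2 _ _ (Or.inr y.2)
  rw [gH, gH, gH, hs (fun x => g' x * φ x ^ 4 + b' x * φ x ^ 2),
    hs (fun x => ∑ y, J' x y * φ x * φ y)]
  simp only [hs (fun y => J' _ y * φ _ * φ y), hJ1, hJ2, h1, h3, h4, zero_mul,
    Finset.sum_const_zero, add_zero, mul_zero, sub_zero]
  ring

end

/-- the weight -/
def wt {ι : Type} [Fintype ι] (J : ι → ι → ℝ) (g b : ι → ℝ) (φ : ι → ℝ) : ℝ≥0∞ :=
  ENNReal.ofReal (Real.exp (-gH J g b φ))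

theorem wt_meas {ι : Type} [Fintype ι] (J : ι → ι → ℝ) (g b : ι → ℝ) : Measurable (wt J g b) := by
  have h : Continuous fun φ : ι → ℝ => Real.exp (-gH J g b φ) := by
    unfold gH
    fun_prop
  exact h.measurable.ennreal_ofReal

theorem glaw_apply {ι : Type} [Fintype ι] (J : ι → ι → ℝ) (g b : ι → ℝ) {S : Set (ι → ℝ)}
    (hS : MeasurableSet S) : glaw J g b S =
      (∫⁻ φ, wt J g b φ)⁻¹ * ∫⁻ φ, S.indicator (wt J g b) φ := by
  rw [lintegral_indicator hS, glaw, Measure.smul_apply, withDensity_apply _ hS, smul_eq_mul]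
  rfl

theorem wt_int (hGLW : T_GLW) {ι : Type} [Fintype ι] (J : ι → ι → ℝ) (g b : ι → ℝ)
    (hg : ∀ x, 0 < g x) : (∫⁻ φ, wt J g b φ) ≠ 0 ∧ (∫⁻ φ, wt J g b φ) ≠ ⊤ := by
  obtain ⟨h1, h2, -⟩ := hGLW ι J g b hg
  have h3 := h1 0
  simp only [zero_mul, zero_sub] at h3
  have h4 := ofReal_integral_eq_lintegral_ofReal h3
    (Filter.Eventually.of_forall fun φ => (Real.exp_pos _).le)
  have h5 : (∫⁻ φ, wt J g b φ) = ENNReal.ofReal (∫ φ : ι → ℝ, Real.exp (-gH J g b φ)) := h4.symm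
  rw [h5]
  exact ⟨(ENNReal.ofReal_pos.mpr h2).ne', ENNReal.ofReal_ne_top⟩

theorem pf_SUB (hGLW : T_GLW) : T_SUB := by
  classical
  intro ι ι' _ _ e J J' g b g' b' he hg' h1 h2 h3 h4
  set J0 : ((Set.range e)ᶜ : Set ι') → ((Set.range e)ᶜ : Set ι') → ℝ := fun _ _ => 0 with hJ0
  set g0 : ((Set.range e)ᶜ : Set ι') → ℝ := fun x => g' x.1 with hg0
  set b0 : ((Set.range e)ᶜ : Set ι') → ℝ := fun x => b' x.1 with hb0
  have hw : ∀ φ : ι' → ℝ, wt J' g' b' φ = wt J g b (cEq e he φ).1 * wt J0 g0 b0 (cEq e he φ).2 := by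
    intro φ
    rw [wt, gH_split e he J J' g b g' b' h1 h2 h3 h4 φ, neg_add, Real.exp_add,
      ENNReal.ofReal_mul (Real.exp_pos _).le, cEq_fst, cEq_snd]
    rfl
  obtain ⟨hH0, hHt⟩ := wt_int hGLW J0 g0 b0 (fun x => hg' x.1)
  -- integrals of products
  have hprod : ∀ F : (ι → ℝ) → ℝ≥0∞, Measurable F →
      ∫⁻ φ : ι' → ℝ, F (cEq e he φ).1 * wt J0 g0 b0 (cEq e he φ).2 =
        (∫⁻ φ, F φ) * ∫⁻ φ, wt J0 g0 b0 φ := by
    intro F hF
    have hm : Measurable fun z : (ι → ℝ) × (((Set.range e)ᶜ : Set ι') → ℝ) =>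
        F z.1 * wt J0 g0 b0 z.2 :=
      (hF.comp measurable_fst).mul ((wt_meas J0 g0 b0).comp measurable_snd)
    rw [(cEq_mp e he).lintegral_comp hm]
    exact lintegral_prod_mul hF.aemeasurable (wt_meas J0 g0 b0).aemeasurable
  have hmap : Measurable (fun (φ : ι' → ℝ) (x : ι) => φ (e x)) :=
    measurable_pi_iff.mpr fun x => measurable_pi_apply (e x)
  ext S hS
  rw [Measure.map_apply hmap hS, glaw_apply _ _ _ (hmap hS), glaw_apply _ _ _ hS]
  have hZ : ∫⁻ φ, wt J' g' b' φ = (∫⁻ φ, wt J g b φ) * ∫⁻ φ, wt J0 g0 b0 φ := by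
    rw [← hprod _ (wt_meas J g b)]
    exact lintegral_congr hw
  have hSI : ∫⁻ φ, ((fun (φ : ι' → ℝ) (x : ι) => φ (e x)) ⁻¹' S).indicator (wt J' g' b') φ =
      (∫⁻ φ, S.indicator (wt J g b) φ) * ∫⁻ φ, wt J0 g0 b0 φ := by
    rw [← hprod _ ((wt_meas J g b).indicator hS)]
    refine lintegral_congr fun φ => ?_
    by_cases hφ : (fun x => φ (e x)) ∈ S
    · have hφ' : (cEq e he φ).1 ∈ S := by
        rw [cEq_fst]
        exact hφ
      rw [Set.indicator_of_mem (show φ ∈ ((fun (φ : ι' → ℝ) (x : ι) => φ (e x)) ⁻¹' S) from hφ),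
        Set.indicator_of_mem hφ', hw]
    · have hφ' : (cEq e he φ).1 ∉ S := by
        rw [cEq_fst]
        exact hφ
      rw [Set.indicator_of_notMem
        (show φ ∉ ((fun (φ : ι' → ℝ) (x : ι) => φ (e x)) ⁻¹' S) from hφ),
        Set.indicator_of_notMem hφ', zero_mul]
  rw [hZ, hSI, ENNReal.mul_inv (Or.inr hHt) (Or.inr hH0)]
  calc (∫⁻ φ, wt J g b φ)⁻¹ * (∫⁻ φ, wt J0 g0 b0 φ)⁻¹ *
        ((∫⁻ φ, S.indicator (wt J g b) φ) * ∫⁻ φ, wt J0 g0 b0 φ)
      = (∫⁻ φ, wt J g b φ)⁻¹ * (∫⁻ φ, S.indicator (wt J g b) φ) *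
        ((∫⁻ φ, wt J0 g0 b0 φ)⁻¹ * ∫⁻ φ, wt J0 g0 b0 φ) := by ring
    _ = (∫⁻ φ, wt J g b φ)⁻¹ * ∫⁻ φ, S.indicator (wt J g b) φ := by
      rw [ENNReal.inv_mul_cancel hH0 hHt, mul_one]

end

end Pool.Agent.H49.UDP
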