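import Pool.Agent.H29.UDP.TLat

/-!
# The box is dominated by the torus (row BXT)
-/

set_option autoImplicit false

open MeasureTheory Filter Topology
open scoped ENNReal InnerProductSpace

namespace Pool.Agent.H49.UDP

open Pool.Agent.H29.UDP

noncomputable section

/-- the embedding of the box into the torus -/
def emb (d L N : ℕ) (x : Bx d L) : Fin d → ZMod N := fun j => ((x j : ℕ) : ZMod N)

theorem emb_inj (d L N : ℕ) [NeZero N] (hL : 2 * L ≤ N) : Function.Injective (emb d L N) := by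
  intro x y hxy
  ext j
  have h1 : ((x j : ℕ) : ZMod N) = ((y j : ℕ) : ZMod N) := congrFun hxy j
  have h2 := congrArg ZMod.val h1
  rw [ZMod.val_natCast_of_lt ((x j).2.trans_le hL), ZMod.val_natCast_of_lt ((y j).2.trans_le hL)]
    at h2
  exact h2

/-- the coupling of two different sites of the box -/
theorem pos_sub (δ : ℝ) {d L : ℕ} (x y : Bx d L) :
    bpos δ x - bpos δ y = ipt δ (fun j => ((x j : ℕ) : ℤ) - ((y j : ℕ) : ℤ)) := by
  ext j
  simp only [bpos, ipt, PiLp.sub_apply]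
  push_cast
  ring

theorem bJ_nonneg {δ κ κ' s : ℝ} (hκ : 0 ≤ κ) (hκ' : 0 ≤ κ') {d L : ℕ} (x y : Bx d L) :
    0 ≤ bJ δ κ κ' s x y := by
  rw [bJ]
  refine add_nonneg ?_ ?_
  · split_ifs
    · exact le_rfl
    · exact mul_nonneg hκ (Real.rpow_nonneg (norm_nonneg _) _)
  · split_ifs
    · exact hκ'
    · exact le_rfl

theorem bJ_le {δ κ κ' s : ℝ} (hPJS : T_PJS) {d L N : ℕ} [NeZero N] (hδ : 0 < δ) (hκ : 0 ≤ κ)
    (hκ' : 0 ≤ κ') (hs : (d : ℝ) < 2 * s) (x y : Bx d L) :
    bJ δ κ κ' s x y ≤ pJ δ κ κ' s (emb d L N x - emb d L N y) := by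
  obtain ⟨-, h0, -, h1⟩ := hPJS d N δ κ κ' s hδ hκ hκ' hs
  by_cases hxy : x = y
  · subst hxy
    have h2 : bJ δ κ κ' s x x = 0 := by
      simp [bJ, hδ.ne]
    rw [h2]
    exact h0 _
  · have h2 := h1 (fun j => ((x j : ℕ) : ℤ) - ((y j : ℕ) : ℤ)) (by
      intro h3
      apply hxy
      ext j
      have h4 := congrFun h3 j
      simp only [Pi.zero_apply] at h4
      omega)
    have h5 : (fun j => (((((x j : ℕ) : ℤ) - ((y j : ℕ) : ℤ) : ℤ)) : ZMod N)) =
        emb d L N x - emb d L N y := by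
      ext j
      simp [emb]
    rw [h5, ← pos_sub] at h2
    rw [bJ, if_neg hxy]
    exact h2

theorem pf_BXT (hMO2 : T_MO2) (hSUB : T_SUB) (hPJS : T_PJS) : T_BXT := by
  classical
  intro d L N _ δ κ κ' s g b hL hδ hκ hκ' hs hg c hc
  set e := emb d L N with he
  have hinj : Function.Injective e := emb_inj d L N hL
  have hinj2 : Function.Injective (Prod.map e e) := hinj.prodMap hinj
  obtain ⟨-, hp0, -, -⟩ := hPJS d N δ κ κ' s hδ hκ hκ' hs
  -- the transported coupling
  set J0 : (Fin d → ZMod N) → (Fin d → ZMod N) → ℝ := fun x y =>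
    Function.extend (Prod.map e e) (fun p : Bx d L × Bx d L => bJ δ κ κ' s p.1 p.2)
      (fun _ => 0) (x, y) with hJ0
  have hJe : ∀ x y, J0 (e x) (e y) = bJ δ κ κ' s x y := by
    intro x y
    rw [hJ0]
    exact hinj2.extend_apply (fun p : Bx d L × Bx d L => bJ δ κ κ' s p.1 p.2) (fun _ => 0) (x, y)
  have hJn : ∀ x y, (x ∉ Set.range e ∨ y ∉ Set.range e) → J0 x y = 0 := by
    intro x y hxy
    rw [hJ0]
    refine Function.extend_apply' _ _ _ ?_
    rintro ⟨p, hp⟩
    have h1 : e p.1 = x := congrArg Prod.fst hp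
    have h2 : e p.2 = y := congrArg Prod.snd hp
    rcases hxy with h | h
    · exact h ⟨_, h1⟩
    · exact h ⟨_, h2⟩
  have hcase : ∀ x y, 0 ≤ J0 x y ∧ J0 x y ≤ pJ δ κ κ' s (x - y) := by
    intro x y
    by_cases hx : x ∈ Set.range e
    · by_cases hy : y ∈ Set.range e
      · obtain ⟨a, rfl⟩ := hx
        obtain ⟨a', rfl⟩ := hy
        rw [hJe]
        exact ⟨bJ_nonneg hκ hκ' _ _, bJ_le hPJS hδ hκ hκ' hs _ _⟩
      · rw [hJn x y (Or.inr hy)]
        exact ⟨le_rfl, hp0 _⟩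
    · rw [hJn x y (Or.inl hx)]
      exact ⟨le_rfl, hp0 _⟩
  -- the transported test function
  set c0 : (Fin d → ZMod N) → ℝ := fun z => ∑ x, if e x = z then c x else 0 with hc0
  have hc0n : ∀ z, 0 ≤ c0 z := fun z => Finset.sum_nonneg fun x _ => by
    split_ifs
    · exact hc x
    · exact le_rfl
  have hsum : ∀ φ : (Fin d → ZMod N) → ℝ, ∑ z, c0 z * φ z = ∑ x, c x * φ (e x) := by
    intro φ
    simp only [hc0, Finset.sum_mul, ite_mul, zero_mul]
    rw [Finset.sum_comm]
    refine Finset.sum_congr rfl fun x _ => ?_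
    simp
  have hM := hMO2 (Fin d → ZMod N) J0 (fun x y => pJ δ κ κ' s (x - y)) (fun _ => g) (fun _ => b)
    (fun _ => b) (fun _ => hg) (fun x y => (hcase x y).1) (fun x y => (hcase x y).2)
    (fun _ => le_rfl) 2 (fun _ => c0) (fun _ z => hc0n z)
  simp only [Finset.prod_const, Finset.card_univ, Fintype.card_fin, hsum] at hM
  have hS := hSUB (Bx d L) (Fin d → ZMod N) e (bJ δ κ κ' s) J0 (fun _ => g) (fun _ => b)
    (fun _ => g) (fun _ => b) hinj (fun _ => hg) hJe hJn (fun _ => rfl) (fun _ => rfl)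
  have hb : bgibbs d L δ κ κ' s g b =
      (glaw J0 (fun _ => g) (fun _ => b)).map (fun φ x => φ (e x)) := by
    rw [bgibbs, hS]
  rw [hb, integral_map]
  · exact hM
  · exact (measurable_pi_iff.mpr fun x => measurable_pi_apply (e x)).aemeasurable
  · refine (Continuous.aestronglyMeasurable ?_)
    fun_prop

end

end Pool.Agent.H49.UDP
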